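import Pool.Agent.L0h14.CK.Fib

/-!
# Chow-Künneth decompositions of varieties whose cycles of small dimension are supported on surfaces

Let `X` be a smooth projective variety of dimension `n` over a field. Suppose that the Chow groups `CH_i(X)` over a universal
domain, `i < c`, are generated by the images of the groups of zero-cycles of surfaces under correspondences. By the argument
of Bloch and Srinivas the diagonal of `X` is a sum of correspondences which factor through the motives `h(S_i)(-i)` of
surfaces `S_i`, `i < c`, and of a correspondence which is supported on `V × X` with `codim V = c` and so factors through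
`h(D)(-c)` for a smooth projective variety `D` of dimension `n - c`.

Theorem. If `2 c + 1 ≤ n ≤ 2 c + 2` then `X` has a Chow-Künneth decomposition.

For `c = 1` these are all threefolds and fourfolds whose group of zero-cycles is supported on a surface, for `c = 2` the
varieties of dimension five and six whose zero-cycles and one-cycles come from surfaces. The motives of the surfaces are not
assumed to be finite-dimensional.

The proof: a composition which raises the weight, of the part which factors through `h(S_i)(-i)` with the part which factors
through `h(S_k)(-k)`, `k > i`, or `h(D)(-c)`, or with the transposed parts of higher weight, is given by a correspondence of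
codimension at most one and so factors through curves. So the diagonal is a triangular sum modulo the ideal `J` of
finite-dimensional type, which can be changed to a sum of orthogonal idempotents modulo `J`. Their actions on cohomology
are concentrated in one degree, up to `J`. One splits off a maximal summand which belongs to `J`, after which `J` is a nil
ideal, and lifts the idempotents.
-/

set_option autoImplicit false

universe u v w

open CategoryTheory

namespace Pool.Agent.Results.MP_638e8a_ag.CyclesSupportedOnSurfaces

open Pool.Agent.L0h14.CK

/-- Let `T` be the theory of correspondences over a field, with a Weil cohomology, and `J` an ideal of correspondences of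
finite-dimensional type. Let `X` be of dimension `2 c + 1` or `2 c + 2`, and let the diagonal of `X` be the sum of
compositions `a i ≫ b i`, `i < c`, through surfaces `S i`, with `a i` of degree `-i` and `b i` of degree `i`, and of a
composition `u ≫ v` with `u` of degree `-c` and `v` of degree `c`. Then `X` has a Chow-Künneth decomposition. -/
theorem result {𝒱 : Type u} [Category.{v} 𝒱] [Preadditive 𝒱] [Linear ℚ 𝒱] {F : Type w} [Field F]
    (T : CorrTheory 𝒱 F) (J : ∀ X Y : 𝒱, Submodule ℚ (X ⟶ Y)) (hJ : T.FiniteIdeal J) (X D : 𝒱) (c : ℕ)
    (h1 : 2 * (c : ℤ) + 1 ≤ T.dim X) (h2 : T.dim X ≤ 2 * (c : ℤ) + 2) (S : ℕ → 𝒱) (hS : ∀ i < c, T.dim (S i) = 2)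
    (a : ∀ i, X ⟶ S i) (ha : ∀ i < c, a i ∈ T.gr X (S i) (-i)) (b : ∀ i, S i ⟶ X)
    (hb : ∀ i < c, b i ∈ T.gr (S i) X i) (u : X ⟶ D) (hu : u ∈ T.gr X D (-c)) (v : D ⟶ X) (hv : v ∈ T.gr D X c)
    (hsum : 𝟙 X = ∑ i ∈ Finset.range c, a i ≫ b i + u ≫ v) : T.HasCK X :=
  hasCK_of_level hJ X D c h1 h2 S a b hS ha hb u v hu hv hsum

end Pool.Agent.Results.MP_638e8a_ag.CyclesSupportedOnSurfaces
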