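import Pool.Agent.L0h13.CX.Plus

/-!
# Chow-Künneth decompositions, exchange rings and direct summands

`𝒞` is an idempotent complete additive category with `ℚ`-linear structure, for instance the category
of Chow motives over a field, and `R j` are additive functors to vector spaces, for instance the
groups `H^j` of a Weil cohomology. `HasCK R M` says that `M` has a Chow-Künneth decomposition, and
`HasC R M` is the standard conjecture of Künneth type for `M` (for the realisations `R j`). An object
`N` has the exchange property, `Exchange N`, if `End N` is an exchange ring (Warfield, Nicholson): for
each endomorphism `a` there is an idempotent `e` which is a multiple of `a` such that `1 - e` is a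
multiple of `1 - a`. This holds if all endomorphisms of `N` are algebraic over `ℚ`, in particular if
`N` is finite-dimensional in the sense of Kimura.

**Theorem.**
1. If `M` has the exchange property then `M` has a Chow-Künneth decomposition if and only if it
   satisfies the standard conjecture of Künneth type.
2. If `N` has the exchange property and `M` is arbitrary then `M ⊞ N` has a Chow-Künneth decomposition
   if and only if `M` and `N` have one.
3. Let `π` be a Chow-Künneth decomposition of `M` such that all elements of the ideal of `End M`
   generated by the morphisms between *different* members `M_i` and `M_j`, `i ≠ j`, are algebraic over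
   `ℚ` (for instance nilpotent: no condition on `End M_i`). Then **every direct summand of `M`** has a
   Chow-Künneth decomposition. This applies if there are no nonzero morphisms from `M_i` to `M_j` for
   `i < j`, as for sums of twists of motives of surfaces (then the ideal is nilpotent).
4. Call a class of objects good if it is closed under isomorphisms, direct sums and direct summands,
   and all members have Chow-Künneth decompositions. The pure objects of a given degree `m` are a good
   class. If `𝒬` is good then so is the class `Plus R 𝒬` of all direct sums of a member of `𝒬` and
   finitely many objects with the exchange property which have Chow-Künneth decompositions. Membership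
   in a good class `𝒬` is invariant under adding and removing members of `𝒬`.

Consequences for varieties. Let `X` be a smooth projective variety which has a Chow-Künneth
decomposition such that all `h^i(X)` with `i ≠ m` are finite-dimensional (`h^m(X)` is arbitrary; so
`End h(X)` can be arbitrarily large). By 4, with `𝒬` the pure objects of degree `m`, every direct
summand of `h(X)` has a Chow-Künneth decomposition. So all smooth projective varieties `Y` with a
surjective morphism `X → Y` have a Chow-Künneth decomposition, for instance quotients of `X` (the
projectors of `X` need not be stable under the group), and it descends along finite extensions of the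
base field. If the dimension of `X` is `4`, `m = 4`, and the characteristic is `0`, all smooth
projective varieties dominated by `X` by a rational map, and all those birational to `X`, have a
Chow-Künneth decomposition: blowing up a surface `S` adds `h(S)(-1)`, and `t^2(S)(-1)` is pure of
degree `4`, all the other parts are finite-dimensional. It was known that one can add and remove
centres with *tame* motives (algebraic endomorphisms and bounded families of orthogonal idempotents),
such as points and curves; `t^2(S)` is not known to be tame.

The proof. Write `M ⊞ N = ⨁ X_i`. If `End N` is an exchange ring then `1 = ∑ a_i`, where `a_i` is the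
composition `N → X_i → N`, gives orthogonal idempotents `e_i` in the left ideals of the `a_i` with sum
`1`, so that the image of `e_i` is also a direct summand of `X_i`, and the sum of the complements in
all `X_i` is isomorphic to `M`. For 4 one exchanges the members of the decomposition, except the one
from `𝒬`, with the two summands of `M`. For 3 let `e` be the projector on the summand; its diagonal
parts `π_i e π_i` are idempotent modulo the ideal, and are congruent to idempotents `e_i`. The
idempotents `e` and `d = ∑ e_i` are congruent, and they have isomorphic direct summands whose
complements have projectors in the ideal. These complements have the exchange property and can be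
cancelled.
-/

namespace Pool.Agent.Results.MP_638e8a_ag.ExchangeSummands

open CategoryTheory CategoryTheory.Limits Pool.Agent.Y110.CK Pool.Agent.L0h13.CX

universe v u w

/-- **Chow-Künneth decompositions and the exchange property.** -/
theorem result {𝒞 : Type u} [Category.{v} 𝒞] [Preadditive 𝒞] [HasBinaryBiproducts 𝒞] [Linear ℚ 𝒞]
    [IsIdempotentComplete 𝒞] :
    (∀ N : 𝒞, (∀ f : End N, IsAlgebraic ℚ f) → Exchange N) ∧
    (∀ (K : Type w) [Field K] (R : ℕ → 𝒞 ⥤ ModuleCat.{w} K) [∀ j, (R j).Additive],
      (∀ M : 𝒞, Exchange M → (HasCK R M ↔ HasC R M)) ∧
      (∀ M N : 𝒞, Exchange N → (HasCK R (M ⊞ N) ↔ HasCK R M ∧ HasCK R N)) ∧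
      (∀ (M A B : 𝒞) (n : ℕ) (π : ℕ → (M ⟶ M)), IsCK R M n π →
        (∀ g ∈ offIdeal π, IsAlgebraic ℚ g) → Nonempty (M ≅ A ⊞ B) → HasCK R A) ∧
      (∀ m : ℕ, GoodClass R (Pure R m)) ∧
      (∀ 𝒬 : 𝒞 → Prop, GoodClass R 𝒬 → GoodClass R (Plus R 𝒬) ∧
        ∀ X Y : 𝒞, Relation.EqvGen (fun X Y : 𝒞 => ∃ N : 𝒞, 𝒬 N ∧ Nonempty (Y ≅ X ⊞ N)) X Y →
          (𝒬 X ↔ 𝒬 Y))) := by
  refine ⟨fun N h => Exchange.of_alg h, fun K _ R _ => ⟨fun M hM => ⟨hasC_of_hasCK,
    hasCK_of_hasC hM⟩, fun M N hN => hasCK_cancel (sumOfIso (Iso.refl _)) hN, ?_,
    fun m => Pure.good m, fun 𝒬 hQ => ⟨Plus.good hQ, fun X Y h => hQ.chain h⟩⟩⟩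
  rintro M A B n π h halg ⟨e⟩
  rw [hasCK_iff]
  exact hasDec_of_offIdeal ((isCK_iff R).mp h) halg (sumOfIso e)

end Pool.Agent.Results.MP_638e8a_ag.ExchangeSummands
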