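import Pool.Agent.L0h14.PF.Main

/-!
# Chow-Künneth decompositions from the generic fibre

Let `f : Y → S` be a morphism from a smooth projective variety of dimension `n` over a field `k` to a projective variety of
any dimension `m`, with smooth generic fibre `A` over `K = k(S)`.

Theorem. Suppose that `A` has a Chow-Künneth decomposition over `K` and that

* the cohomology classes of `Y` which are supported over proper closed subsets of `S` come from finite-dimensional motives, and
* relative correspondences of `Y` over `S` which vanish on the generic fibre are nilpotent modulo correspondences which factor
through finite-dimensional motives; this holds if `f` is smooth.

Then `Y` has a Chow-Künneth decomposition, and so does every `X` which is isomorphic to `Y` up to finite-dimensional motives,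
for instance by blow-ups of points and curves.

Example: `S` is a curve and `f` is smooth. The first condition means that the invariant cohomology of the fibres, the image
of `H^*(Y)` in the cohomology of a fibre, comes from finite-dimensional motives, for instance is spanned by algebraic classes.
There is no condition on the fibres besides the one that `A` has a Chow-Künneth decomposition; they may be products of surfaces
or Hilbert schemes of points of surfaces, or threefolds of Kodaira dimension less than three, in any characteristic. So
fibre powers and relative Hilbert schemes of smooth families of surfaces with large monodromy, which have arbitrary large
dimension and whose motives are not known to be finite-dimensional, have Chow-Künneth decompositions. If `S` is a curve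
and `f` has singular fibres with simple normal crossings, the second condition holds if the intersections of the components of
the fibres have finite-dimensional motives, for instance if all singular points of the fibres were ordinary double points before
they were blown up.

The proof: the ring of relative correspondences maps onto the ring of correspondences of `A`, with a kernel which is nil modulo
the ideal `J` of finite-dimensional type, so the projectors of `A` lift to relative correspondences `p_i` which are
orthogonal idempotents modulo `J`. By the Leray spectral sequence over a small affine open subset of `S`, Artin vanishing and
Poincaré duality `p_i` acts on `H^k(Y)`, `k ≠ i + m`, as an element of `J`. Then one splits off a maximal summand of `X` which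
belongs to `J`, after which `J` is a nil ideal, and lifts the idempotents again.
-/

set_option autoImplicit false

universe u v w u' v'

open CategoryTheory

namespace Pool.Agent.Results.MP_638e8a_ag.ProjectorsOfGenericFibre

open Pool.Agent.L0h14.CK Pool.Agent.L0h14.PF

/-- Let `T` be the theory of correspondences over a field, with a Weil cohomology, `J` an ideal of correspondences of
finite-dimensional type, and `Φ` the relation to the correspondences over the function field of a base `S` of dimension `m`.
Let `X` be isomorphic, up to `J`, to a variety `Φ.model A` of the same dimension which is fibred over `S` with generic fibre
`A`. If `A` has a Chow-Künneth decomposition over the function field, if the relative correspondences which vanish on `A` are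
nilpotent modulo `J` and if the cohomology classes of `Φ.model A` which are supported over proper closed subsets of `S` come from
`J`, then `X` has a Chow-Künneth decomposition. -/
theorem result {𝒱 : Type u} [Category.{v} 𝒱] [Preadditive 𝒱] [Linear ℚ 𝒱] {F : Type w} [Field F]
    (T : CorrTheory 𝒱 F) (J : ∀ X Y : 𝒱, Submodule ℚ (X ⟶ Y)) (hJ : T.FiniteIdeal J) (m : ℕ)
    {𝒲 : Type u'} [Category.{v'} 𝒲] [Preadditive 𝒲] (Φ : Family T m 𝒲) (A : 𝒲) (X : 𝒱) (h0 : 0 ≤ T.dim X)
    (hdim : T.dim X = T.dim (Φ.model A)) (hiso : IsoMod T J X (Φ.model A)) (hA : Φ.GenericCK A)
    (hnil : Φ.NilpotentModJ J A) (hsupp : Φ.SupportedFromJ J A) : T.HasCK X :=
  hasCK_of_family hJ Φ A X h0 hdim hiso hA hnil hsupp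

end Pool.Agent.Results.MP_638e8a_ag.ProjectorsOfGenericFibre
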