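import Pool.Agent.L0h14.CK.Fib

/-!
# Chow-Künneth decompositions of threefolds which are fibred over a curve

Let `X` be a smooth projective threefold over a field `k` with a dominant rational map to a curve `C`, let `X' → X` be a composition
of blow-ups along points and smooth curves such that `X'` maps to `C`, and suppose that the generic fibre `A` of `X' → C` is
smooth.

Theorem. If the transcendental part of `H^2(X')` restricts to zero on the geometric generic fibre, up to a part which comes
from finite-dimensional motives (such as abelian varieties), then `X` has a Chow-Künneth decomposition. Over the complex
numbers the condition is that the holomorphic two-forms on `X` vanish on the fibres, up to those which come from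
finite-dimensional motives. The theorem is stated for varieties of any dimension `n ≥ 3` such that `H^k`, `3 ≤ k < n`, comes from
finite-dimensional motives.

The condition is satisfied by all complex threefolds of Kodaira dimension less than three, for a suitable curve: if `X` maps to a
surface `S` all two-forms which come from `S` vanish on the fibres of `X → S ⇢ ℙ¹`; if `X → S` is an elliptic fibration with
variable invariant `j` then all two-forms on `X` vanish on the fibres of `j : X ⇢ ℙ¹`, since a two-form is locally
`g dτ ∧ dz + h ds ∧ dt`; if `j` is constant the remaining two-forms come from `E × S'`, from the finite-dimensional
motive `h^1(E) ⊗ h^1(S')`; if `X` is fibred in surfaces of Kodaira dimension zero over a curve, then a two-form which does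
not vanish on the fibres makes the family isotrivial.

The proof: Murre's Picard projector of the generic fibre `A` factors through a curve over the function field `K = k(C)`.
It spreads out to a correspondence `P` of `X'` which factors through a surface, is idempotent modulo correspondences which
factor through curves, and acts as the identity on the transcendental part of `H^2`. The composition of `P` with its transpose
factors through a divisor on the product of two surfaces, that is through curves. So `P`, `(1 - P) P^t` and `(1 - P)(1 - P^t)`
are, in this order or its opposite, orthogonal idempotents modulo the ideal `J` of finite-dimensional type; one splits off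
a maximal summand of `X` which belongs to `J`, after which `J` is a nil ideal, and lifts the idempotents.
-/

set_option autoImplicit false

universe u v w u' v'

open CategoryTheory

namespace Pool.Agent.Results.MP_638e8a_ag.ThreefoldsOverCurves

open Pool.Agent.L0h14.CK

/-- Let `T` be the theory of correspondences over a field, with a Weil cohomology, `J` an ideal of correspondences of
finite-dimensional type, and `Φ` the relation to the correspondences over the function field of a curve. Let `X` be of dimension at
least three and isomorphic, up to `J`, to a variety `Φ.model A` which is fibred over the curve with generic fibre `A`. If
`H^2(Φ.model A)` vanishes on the geometric generic fibre up to `J`, and if, in dimension `n > 3`, the groups `H^k(Φ.model A)`,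
`3 ≤ k < n`, come from `J`, then `X` has a Chow-Künneth decomposition. -/
theorem result {𝒱 : Type u} [Category.{v} 𝒱] [Preadditive 𝒱] [Linear ℚ 𝒱] {F : Type w} [Field F]
    (T : CorrTheory 𝒱 F) (J : ∀ X Y : 𝒱, Submodule ℚ (X ⟶ Y)) (hJ : T.FiniteIdeal J)
    {𝒲 : Type u'} [Category.{v'} 𝒲] [Preadditive 𝒲] (Φ : Fibration T J 𝒲) (A : 𝒲) (X : 𝒱)
    (h3 : 3 ≤ T.dim X) (hiso : IsoMod T J X (Φ.model A)) (htr : Φ.Transverse A)
    (hk : ∀ k, 3 ≤ k → k < T.dim X → FromJ T J (Φ.model A) k) : T.HasCK X :=
  hasCK_of_transverse hJ Φ A X h3 hiso htr hk

end Pool.Agent.Results.MP_638e8a_ag.ThreefoldsOverCurves
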